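import Mathlib
import Pool.Agent.Lib.MP_48149e.Defs
import Pool.Agent.Lib.MP_48149e.Main

/-!
Extremal 3-product-free sets in the free semigroup, Problem `MP_48149e_co`, question Q1: the
structure theorem is proved. The definitions are in `Pool/Agent/Lib/MP_48149e/Defs.lean`.
-/

open Pool.Agent.Lib.MP_48149e

namespace Pool.Agent.Results.MP_48149e_co.Structure

/-- Let `α` be a finite nonempty alphabet and let `S` be a 3-product-free set of words over `α`
with upper Banach density `1/3`. Then there is a labelling of `α` by `ℤ/3ℤ` such that all words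
of `S` have label `1`, or there is a labelling of `α` by `ℤ/6ℤ` such that all words of `S` have
label `1` or `2`. -/
theorem result {α : Type*} [Fintype α] [Nonempty α] (S : Set (List α))
    (hS : ThreeProductFree S) (hd : upperBanachDensity S = 1 / 3) :
    (∃ lab : α → ZMod 3, S ⊆ {w | label lab w = 1}) ∨
      (∃ lab : α → ZMod 6, S ⊆ {w | label lab w ∈ ({1, 2} : Set (ZMod 6))}) := by
  rcases main S hS hd with ⟨lab, h⟩ | ⟨lab, h⟩
  · exact Or.inl ⟨lab, fun w hw => h w hw⟩
  · refine Or.inr ⟨lab, fun w hw => ?_⟩
    rcases h w hw with h | h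
    · exact Or.inl h
    · exact Or.inr h

end Pool.Agent.Results.MP_48149e_co.Structure
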